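import Pool.Agent.Helper40.GS.Transport

set_option autoImplicit false

namespace Pool.Agent.Results.MP_810fd7_co.TypeTwoCirculants

open Pool.Agent.Helper40.TF

/-- Let `m` be odd and let `Γ = Cay(ℤ_{2m}, S)` be a nontrivially unstable circulant of Type II.
Then `Γ ≅ Cay(ℤ_{2m}, S + m)`. -/
theorem result (m : ℕ) (hm : Odd m) (S : Set (ZMod (2 * m))) (hS : ∀ x ∈ S, -x ∈ S)
    (Γ : SimpleGraph (ZMod (2 * m))) (hΓ : ∀ x y, Γ.Adj x y ↔ y - x ∈ S)
    (hu : NontriviallyUnstable Γ) (hII : TypeII m Γ) :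
    ∃ φ : Equiv.Perm (ZMod (2 * m)), ∀ x y, Γ.Adj x y ↔ φ y - φ x ∈ shift m S :=
  full_thm hm hS hΓ hu hII

end Pool.Agent.Results.MP_810fd7_co.TypeTwoCirculants
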